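import Pool.Agent.Q98.SPN.Stm

/-! # Project GSP, package MOD: a unitary model of the group algebra. -/

set_option autoImplicit false

open scoped Matrix

namespace Pool.Agent.U851.GSP.MOD

open Pool.Agent.Q98.SPN

/-- conjugation by an invertible matrix -/
def cj {n : Type} [Fintype n] [DecidableEq n] (S : (Matrix n n ℂ)ˣ) :
    Matrix n n ℂ ≃ₐ[ℂ] Matrix n n ℂ where
  toFun A := (S : Matrix n n ℂ) * A * ((S⁻¹ : (Matrix n n ℂ)ˣ) : Matrix n n ℂ)
  invFun A := ((S⁻¹ : (Matrix n n ℂ)ˣ) : Matrix n n ℂ) * A * (S : Matrix n n ℂ)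
  left_inv A := by
    simp only [mul_assoc, Units.inv_mul, mul_one]
    rw [← mul_assoc, Units.inv_mul, one_mul]
  right_inv A := by
    simp only [mul_assoc, Units.mul_inv, mul_one]
    rw [← mul_assoc, Units.mul_inv, one_mul]
  map_mul' A B := by
    simp only [mul_assoc]
    rw [← mul_assoc ((S⁻¹ : (Matrix n n ℂ)ˣ) : Matrix n n ℂ) (S : Matrix n n ℂ), Units.inv_mul,
      one_mul]
  map_add' A B := by rw [mul_add, add_mul]
  commutes' r := by
    rw [← Algebra.commutes r (S : Matrix n n ℂ), mul_assoc, Units.mul_inv, mul_one]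

theorem t_MOD : S_WED → S_UNI → S_MOD := by
  intro hW hU G _ _ _
  obtain ⟨k, d, Φ, hd, hs⟩ := hW G
  let ρ : (i : Fin k) → G →* Matrix (Fin (d i)) (Fin (d i)) ℂ := fun i =>
    { toFun := fun g => Φ (MonoidAlgebra.single g 1) i
      map_one' := by
        have h : (MonoidAlgebra.single (1 : G) (1 : ℂ)) = 1 := rfl
        rw [h, map_one]; rfl
      map_mul' := fun g h => by
        have e : (MonoidAlgebra.single (g * h) (1 : ℂ)) =
            MonoidAlgebra.single g 1 * MonoidAlgebra.single h 1 := by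
          rw [MonoidAlgebra.single_mul_single, one_mul]
        rw [e, map_mul]; rfl }
  choose S hS using fun i => hU G (d i) (ρ i)
  refine ⟨k, d, Φ.trans (AlgEquiv.piCongrRight fun i => cj (S i)), ⟨hd, fun g i => ?_⟩, hs⟩
  exact hS i g

end Pool.Agent.U851.GSP.MOD
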